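import Pool.Agent.H31.GS.Main

namespace Pool.Agent.Results.MP_375bfa_co.ReflectionLinks

open Pool.Agent.H31.GS

/-- The Charney-Davis inequality for the flag (real homology) spheres `A` of dimension `2 n - 1` in
which the link of every simplex with an odd number of vertices is real reducible, for instance for
those with a right-angled reflection Gram matrix with at most `2 n` positive eigenvalues, and for
those all of whose vertex links have such a matrix with at most `2 n - 1` positive eigenvalues. -/
theorem result : ∀ (V : Type) [Fintype V] [LinearOrder V] (G : SimpleGraph V) (n : ℕ)
    (A : Finset V), FlagSphere G (2 * n) A →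
    (∀ τ ⊆ A, G.IsClique (τ : Set V) → Odd τ.card → Red G (lk G A τ)) →
    0 ≤ (-1 : ℚ) ^ n * omega G A := by
  intro V _ _ G n A hA h
  exact main hA h

end Pool.Agent.Results.MP_375bfa_co.ReflectionLinks
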